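import Pool.Agent.helper89.PU.Spec1
import Pool.Agent.helper30.UM.VAL
import Pool.Agent.helper46.DS.Conv
import Pool.Agent.helper22.RG.DSM

/-!
# Project PU (MP_2e0e07_nt), row LVF: the level theorem for families
-/

set_option autoImplicit false

namespace Pool.Agent.PV

open Matrix Polynomial Pool.Agent.GO Pool.Agent.AR Pool.Agent.RG Pool.Agent.HZ Pool.Agent.DS
  Pool.Agent.AX Pool.Agent.UM Pool.Agent.PU MeasureTheory NumberField

/-- the roots of a monic polynomial with integral coefficients are integral -/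
theorem LVF_root {K : Type} [NormedField K] [IsUltrametricDist K] (P : K[X]) (hP : P.Monic)
    (hc : ∀ k, ‖P.coeff k‖ ≤ 1) (x : K) (hx : P.eval x = 0) : ‖x‖ ≤ 1 := by
  by_contra h
  rw [not_le] at h
  have h0 : 0 < ‖x‖ := lt_trans zero_lt_one h
  have h1 : P.natDegree ≠ 0 := by
    intro h2
    have h3 : P = 1 := hP.natDegree_eq_zero.1 h2
    rw [h3, eval_one] at hx
    exact one_ne_zero hx
  obtain ⟨n, hn⟩ := Nat.exists_eq_succ_of_ne_zero h1
  rw [eval_eq_sum_range, hn, Finset.sum_range_succ] at hx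
  have h4 : P.coeff (n + 1) = 1 := by
    have := hP.coeff_natDegree
    rwa [hn] at this
  have h5 : x ^ (n + 1) = -∑ k ∈ Finset.range (n + 1), P.coeff k * x ^ k := by
    rw [h4, one_mul] at hx
    linear_combination hx
  have h6 : ‖∑ k ∈ Finset.range (n + 1), P.coeff k * x ^ k‖ ≤ ‖x‖ ^ n := by
    refine IsUltrametricDist.norm_sum_le_of_forall_le_of_nonneg (by positivity) fun k hk => ?_
    rw [norm_mul, norm_pow]
    have h7 : k ≤ n := Nat.lt_succ_iff.1 (Finset.mem_range.1 hk)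
    calc ‖P.coeff k‖ * ‖x‖ ^ k ≤ 1 * ‖x‖ ^ n :=
          mul_le_mul (hc k) (pow_le_pow_right₀ h.le h7) (by positivity) zero_le_one
      _ = ‖x‖ ^ n := one_mul _
  have h8 : ‖x‖ ^ (n + 1) ≤ ‖x‖ ^ n := by
    rw [← norm_pow, h5, norm_neg]
    exact h6
  have h9 : ‖x‖ ^ n < ‖x‖ ^ (n + 1) := pow_lt_pow_right₀ h (Nat.lt_succ_self n)
  exact absurd h8 (not_le.2 h9)

/-- the two roots of a quadratic polynomial -/
theorem LVF_quad {K : Type} [Field K] [IsAlgClosed K] (t δ : K) : ∃ α β : K, α + β = t ∧ α * β = δ := by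
  have h1 : (X ^ 2 - C t * X + C δ : K[X]).natDegree = 2 := by compute_degree!
  obtain ⟨α, hα⟩ := IsAlgClosed.exists_root (X ^ 2 - C t * X + C δ : K[X]) (by
    intro h
    have h2 := natDegree_eq_zero_iff_degree_le_zero.2 h.le
    rw [h1] at h2
    exact two_ne_zero h2)
  refine ⟨α, t - α, by ring, ?_⟩
  have h2 : α ^ 2 - t * α + δ = 0 := by
    simpa [IsRoot] using hα
  linear_combination -h2

theorem LVF_qle {K : Type} [NormedField K] [IsUltrametricDist K] (α β : K) (h1 : ‖α + β‖ ≤ 1)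
    (h2 : ‖α * β‖ ≤ 1) : ‖α‖ ≤ 1 := by
  by_contra h
  rw [not_le] at h
  have h3 : α * α = (α + β) * α - α * β := by ring
  have h4 : ‖α * α‖ ≤ ‖α‖ := by
    rw [h3]
    refine nsub ?_ (h2.trans h.le)
    have := nmul h1 (le_refl ‖α‖)
    rwa [one_mul] at this
  rw [norm_mul] at h4
  nlinarith

theorem LVF_prod {K m : Type} [Field K] [Fintype m] (l : m → K) (α β : K) :
    ∏ i, ∏ j, (l i * l j * (α + β) ^ 2 - α * β * (l i + l j) ^ 2) = (∏ i, ∏ j, (α * l j - β * l i)) ^ 2 := by
  have h1 : ∀ i j, l i * l j * (α + β) ^ 2 - α * β * (l i + l j) ^ 2 = (α * l j - β * l i) * (α * l i - β * l j) := by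
    intro i j
    ring
  simp only [h1, Finset.prod_mul_distrib]
  rw [pow_two]
  congr 1
  exact Finset.prod_comm

theorem LVF_norm_prod {K m : Type} [NormedField K] [Fintype m] (f : m → K) (h : ∀ i, ‖f i‖ ≤ 1) :
    ‖∏ i, f i‖ ≤ 1 := by
  rw [norm_prod]
  exact Finset.prod_le_one (fun i _ => norm_nonneg _) fun i _ => h i

theorem LVF (hLEV : LEV_stmt) (hEXT : EXT_stmt) (hBCL : BCL_stmt) : LVF_stmt := by
  intro r n i₀ Φ hΦ p _ Γ F _ _ _ _ _ _ _ R G₁ κ hL V hV h₂ hh₂ g hi₀
  obtain ⟨K, iK1, iK2, iK3, j, hj1, hj2⟩ := hEXT p F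
  have uK : IsUltrametricDist K := ultra p K
  obtain ⟨hL', hnu, htr, hdet⟩ := hBCL j hj1 R G₁ κ hL
  have htoF : toF p K = j.comp (toF p F) := by
    ext x
    exact (hj2 _).symm
  -- the characteristic polynomials over K
  set PF : Fin r → F[X] := fun i => ((V i g).map (toF p F)).charpoly with hPF
  set PK : Fin r → K[X] := fun i => ((V i g).map (toF p K)).charpoly with hPK
  have hmap : ∀ i, (PF i).map j = PK i := by
    intro i
    rw [hPF, hPK]
    show (((V i g).map (toF p F)).charpoly).map j = ((V i g).map (toF p K)).charpoly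
    rw [← Matrix.charpoly_map, Matrix.map_map, htoF]
    rfl
  have hmon : ∀ i, (PK i).Monic ∧ (PK i).natDegree = n i := by
    intro i
    refine ⟨Matrix.charpoly_monic _, ?_⟩
    rw [hPK]
    show ((V i g).map (toF p K)).charpoly.natDegree = n i
    rw [Matrix.charpoly_natDegree_eq_dim, Fintype.card_fin]
  -- the sum
  have hsum : ((bsum V g).map (toF p K)).charpoly = ∏ i, PK i := by
    have h1 : (bsum V g).map (toF p K) = Matrix.blockDiagonal' fun i => (V i g).map (toF p K) := by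
      show (Matrix.blockDiagonal' fun i => V i g).map (toF p K) = _
      rw [Matrix.blockDiagonal'_map _ _ (map_zero _)]
    rw [h1, Pool.Agent.RG.DSM.charpoly_bd]
  have hprm : (∏ i, PK i).Monic := monic_prod_of_monic _ _ fun i _ => (hmon i).1
  have hprd : (∏ i, PK i).natDegree = ∑ i, n i := by
    rw [natDegree_prod_of_monic _ _ fun i _ => (hmon i).1]
    exact Finset.sum_congr rfl fun i _ => (hmon i).2
  obtain ⟨l', hl'⟩ := exists_roots (∑ i, n i) (∏ i, PK i) hprm hprd
  have hcard : Fintype.card (Σ i : Fin r, Fin (n i)) = ∑ i, n i := by simp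
  set e : (Σ i : Fin r, Fin (n i)) ≃ Fin (∑ i, n i) := Fintype.equivFinOfCardEq hcard with he
  set l : (Σ i : Fin r, Fin (n i)) → K := fun x => l' (e x) with hldef
  have hl : ∏ i, PK i = ∏ x, (X - C (l x)) := by
    rw [hl']
    exact (Equiv.prod_comp e fun y => (X - C (l' y) : K[X])).symm
  obtain ⟨α, β, hα, hβ⟩ := LVF_quad (bc j R g).trace (bc j R g).det
  have hcont : Continuous (bsum V) := by
    have h1 : Continuous fun g => Matrix.blockDiagonal' fun i => V i g :=
      Continuous.matrix_blockDiagonal' (continuous_pi hV)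
    exact h1
  obtain ⟨h, hhG, hVh, hle⟩ := hLEV p (bc j R) G₁ κ hL' (bsum V) hcont h₂ hh₂ g l (hsum.trans hl) α β hα hβ
  refine ⟨h, hhG, ?_, ?_⟩
  · rw [kerV, Subgroup.mem_iInf]
    intro i
    rw [MonoidHom.mem_ker]
    have h1 : Matrix.blockDiagonal' (fun i => V i h) = Matrix.blockDiagonal' (1 : (i : Fin r) → Matrix (Fin (n i)) (Fin (n i)) ℤ_[p]) := by
      rw [Matrix.blockDiagonal'_one]
      exact hVh
    exact congrFun (Matrix.blockDiagonal'_injective h1) i
  · rw [hnu, hnu, hcard] at hle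
    refine le_trans ?_ hle
    refine mul_le_mul_of_nonneg_left ?_ (div_nonneg (nu_nonneg _) (Nat.cast_nonneg _))
    refine pow_le_pow_left₀ (mul_nonneg hL.pos.le (norm_nonneg _)) ?_ _
    refine mul_le_mul_of_nonneg_left ?_ hL.pos.le
    -- the value of the universal polynomial
    have hPi : PK i₀ = X - C (bc j R g).det := by
      rw [← hmap i₀]
      show (((V i₀ g).map (toF p F)).charpoly).map j = _
      rw [hi₀, Polynomial.map_sub, map_X, map_C, hdet]
    have hev := hΦ.2 PK (bc j R g).det hmon hPi l hl (bc j R g).trace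
    have h3 : ‖ev Φ PF (R g).trace‖ = ‖∏ i, ∏ j, (α * l j - β * l i)‖ ^ 2 := by
      rw [← hj1, VAL.1 Φ j PF (R g).trace, ← htr]
      have h4 : (fun i => (PF i).map j) = PK := funext hmap
      rw [h4, hev, ← hα, ← hβ, LVF_prod, norm_pow]
    rw [h3]
    have htr1 : ‖(bc j R g).trace‖ ≤ 1 := by
      rw [htr, hj1, Matrix.trace_fin_two]
      have uF : IsUltrametricDist F := ultra p F
      exact nadd (hL.int _ _ _) (hL.int _ _ _)
    have hdt1 : ‖(bc j R g).det‖ ≤ 1 := (@det_unit Γ K _ _ uK (bc j R) hL'.int g).le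
    have hα1 : ‖α‖ ≤ 1 := LVF_qle α β (by rw [hα]; exact htr1) (by rw [hβ]; exact hdt1)
    have hβ1 : ‖β‖ ≤ 1 := LVF_qle β α (by rw [add_comm, hα]; exact htr1) (by rw [mul_comm, hβ]; exact hdt1)
    have hl1 : ∀ x, ‖l x‖ ≤ 1 := by
      intro x
      refine LVF_root ((bsum V g).map (toF p K)).charpoly (Matrix.charpoly_monic _) (fun k => ?_) (l x) ?_
      · rw [Matrix.charpoly_map, coeff_map, norm_toF]
        exact PadicInt.norm_le_one _
      · rw [hsum, hl, eval_prod]
        exact Finset.prod_eq_zero (Finset.mem_univ x) (by simp)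
    have hθ : ‖∏ i, ∏ j, (α * l j - β * l i)‖ ≤ 1 := by
      refine LVF_norm_prod _ fun i => LVF_norm_prod _ fun j => ?_
      refine nsub ?_ ?_
      · have := nmul hα1 (hl1 j)
        rwa [one_mul] at this
      · have := nmul hβ1 (hl1 i)
        rwa [one_mul] at this
    calc ‖∏ i, ∏ j, (α * l j - β * l i)‖ ^ 2 = ‖∏ i, ∏ j, (α * l j - β * l i)‖ * ‖∏ i, ∏ j, (α * l j - β * l i)‖ := pow_two _
      _ ≤ 1 * ‖∏ i, ∏ j, (α * l j - β * l i)‖ := mul_le_mul_of_nonneg_right hθ (norm_nonneg _)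
      _ = _ := one_mul _

end Pool.Agent.PV
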